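import Pool.Agent.H31.HC

open Pool.Agent.H31.HC

universe u

theorem Pool.Agent.Results.MP_1d4a49_gt.Neg.result :
    ∃ (X : Type) (_ : TopologicalSpace X), T35Space X ∧ Countable X ∧ HCLe X Cardinal.aleph0 ∧
      ∀ (K : Type u) [TopologicalSpace K] [CompactSpace K] [T2Space K] (e : X → K),
        Topology.IsEmbedding e → DenseRange e → ¬ HCLe K Cardinal.aleph0 :=
  main
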